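import Pool.Agent.J6H48.RD.D
import Pool.Agent.Y927.GP.B

/-!
# Restricted digits and generalised Collatz maps: classes modulo `d ^ N`, short intervals
-/

set_option autoImplicit false

namespace Pool.Agent.J6H48.LD

open Finset Pool.Agent.J6H48.RD Pool.Agent.H319R2.M Pool.Agent.Y927

open Classical in
/-- flatness modulo `d ^ N` -/
theorem flat_d {q d : ℕ} (hq : 2 ≤ q) (hd : 2 ≤ d) (hco : Nat.Coprime q d) {D : ℕ → Finset ℕ}
    (hD : ∀ i, Good q (D i)) {r N M : ℕ} (hM : 2 ^ (r + 1) * (d * N) ≤ M) (s : ZMod (d ^ N)) :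
    (((Res q D M).filter fun n : ℕ => (n : ZMod (d ^ N)) = s).card : ℝ) ≤
      2 ^ (r + 1) * q * qb q r ^ (d * N) / d ^ N * (Res q D M).card := by
  have hq0 : (0 : ℝ) < q := by exact_mod_cast (by omega : 0 < q)
  have hq1 : (1 : ℝ) ≤ q := by exact_mod_cast (by omega : 1 ≤ q)
  have hd0 : (0 : ℝ) < d := by exact_mod_cast (by omega : 0 < d)
  have hqb := one_le_qb hq r
  have hc0 : (0 : ℝ) ≤ (Res q D M).card := Nat.cast_nonneg _
  rcases Nat.lt_or_ge (d ^ N) (2 * 2 ^ r) with h | h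
  · have h1 : (((Res q D M).filter fun n : ℕ => (n : ZMod (d ^ N)) = s).card : ℝ) ≤
        1 * (Res q D M).card := by
      rw [one_mul]; exact_mod_cast card_filter_le _ _
    refine h1.trans (mul_le_mul_of_nonneg_right ?_ hc0)
    rw [le_div_iff₀ (by positivity), one_mul]
    have h2 : (d : ℝ) ^ N ≤ 2 ^ (r + 1) := by
      have : d ^ N ≤ 2 ^ (r + 1) := by rw [pow_succ]; omega
      exact_mod_cast this
    have h3 : (1 : ℝ) ≤ qb q r ^ (d * N) := one_le_pow₀ hqb
    have h4 : (0 : ℝ) < 2 ^ (r + 1) := by positivity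
    calc (d : ℝ) ^ N ≤ 2 ^ (r + 1) := h2
      _ = 2 ^ (r + 1) * 1 * 1 := by ring
      _ ≤ 2 ^ (r + 1) * q * qb q r ^ (d * N) := by gcongr
  · have hdN : d ^ N ≤ 2 ^ (d * N) := by
      rw [pow_mul]
      exact Nat.pow_le_pow_left (Nat.lt_two_pow_self).le _
    have hex : ∃ L, ¬ 2 * 2 ^ r * q ^ (L + 1) ≤ d ^ N := by
      refine ⟨d * N, fun hcon => ?_⟩
      have h1 : 2 ^ (d * N + 1) ≤ q ^ (d * N + 1) := Nat.pow_le_pow_left hq _
      have h2 : 1 ≤ 2 ^ r := Nat.one_le_two_pow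
      have h3 : 2 ^ (d * N) < 2 ^ (d * N + 1) := Nat.pow_lt_pow_right (by norm_num) (by omega)
      have h4 : 1 * q ^ (d * N + 1) ≤ 2 * 2 ^ r * q ^ (d * N + 1) := Nat.mul_le_mul_right _ (by omega)
      omega
    set L := Nat.find hex with hL
    have hL1 : ¬ 2 * 2 ^ r * q ^ (L + 1) ≤ d ^ N := Nat.find_spec hex
    have hL2 : 2 * 2 ^ r * q ^ L ≤ d ^ N := by
      rcases Nat.eq_zero_or_pos L with h0 | h0
      · rw [h0, pow_zero, mul_one]; exact h
      · have := Nat.find_min hex (m := L - 1) (by omega)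
        rw [not_not, Nat.sub_add_cancel h0] at this
        exact this
    have hLk : L ≤ d * N := by
      by_contra hcon
      push Not at hcon
      have h1 : 2 ^ L ≤ q ^ L := Nat.pow_le_pow_left hq _
      have h2 : 2 ^ (d * N) < 2 ^ L := Nat.pow_lt_pow_right (by norm_num) hcon
      have h3 : 1 ≤ 2 ^ r := Nat.one_le_two_pow
      have h4 : 1 * q ^ L ≤ 2 * 2 ^ r * q ^ L := Nat.mul_le_mul_right _ (by omega)
      omega
    have hcoN : Nat.Coprime q (d ^ N) := Nat.Coprime.pow_right _ hco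
    have hne : NeZero (d ^ N) := ⟨(pow_pos (by omega) _).ne'⟩
    have hLM : 2 * 2 ^ r * L ≤ M := by
      refine le_trans ?_ hM
      rw [pow_succ, mul_comm (2 ^ r) 2]
      exact Nat.mul_le_mul_left _ hLk
    have h1 := flat_count (by omega) hcoN hD hL2 hLM s
    refine h1.trans (mul_le_mul_of_nonneg_right ?_ hc0)
    have h2 : bnd q (2 ^ r) = qb q r / q := by unfold qb; field_simp
    rw [h2, div_pow, div_le_div_iff₀ (by positivity) (by positivity)]
    have h3 : ((d : ℝ) ^ N) ≤ 2 ^ (r + 1) * q * q ^ L := by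
      have : d ^ N ≤ 2 * 2 ^ r * q ^ (L + 1) := by omega
      have h4 : ((d : ℝ) ^ N) ≤ 2 * 2 ^ r * q ^ (L + 1) := by exact_mod_cast this
      calc ((d : ℝ) ^ N) ≤ 2 * 2 ^ r * q ^ (L + 1) := h4
        _ = _ := by rw [pow_succ, pow_succ]; ring
    have h5 : qb q r ^ L ≤ qb q r ^ (d * N) := pow_le_pow_right₀ hqb hLk
    calc qb q r ^ L * (d : ℝ) ^ N ≤ qb q r ^ (d * N) * (2 ^ (r + 1) * q * q ^ L) :=
          mul_le_mul h5 h3 (by positivity) (by positivity)
      _ = _ := by ring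

/-! ## Short intervals -/

theorem digit_mod {q h i n : ℕ} (hi : i < h) : n % q ^ h / q ^ i % q = n / q ^ i % q := by
  obtain ⟨j, rfl⟩ : ∃ j, h = i + (j + 1) := ⟨h - i - 1, by omega⟩
  rw [pow_add, Nat.mod_mul_right_div_self, pow_succ', Nat.mod_mul_right_mod]

open Classical in
theorem block_count {q : ℕ} (hq : 0 < q) {D : ℕ → Finset ℕ} {h M : ℕ} (hM : h ≤ M) (t : ℕ) :
    ((Res q D M).filter fun n => n / q ^ h = t).card ≤ (Res q D h).card := by
  apply card_le_card_of_injOn (fun n => n % q ^ h)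
  · intro n hn
    rw [mem_coe, mem_filter, mem_Res] at hn
    rw [mem_coe, mem_Res]
    refine ⟨Nat.mod_lt _ (pow_pos hq _), fun i hi => ?_⟩
    rw [digit_mod hi]
    exact hn.1.2 i (by omega)
  · intro n hn n' hn' he
    rw [mem_coe, mem_filter] at hn hn'
    simp only at he
    rw [← Nat.div_add_mod n (q ^ h), ← Nat.div_add_mod n' (q ^ h), hn.2, hn'.2, he]

theorem two_le_card {q : ℕ} {S : Finset ℕ} (hS : Good q S) : 2 ≤ S.card := by
  obtain ⟨_, a, ha, b, hb, hab, _⟩ := hS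
  have h3 : ({a, b} : Finset ℕ) ⊆ S := by
    intro x hx
    rw [mem_insert, mem_singleton] at hx
    rcases hx with rfl | rfl <;> assumption
  have := card_le_card h3
  rwa [card_pair hab.ne] at this

theorem Res_split {q : ℕ} (hq : 0 < q) {D : ℕ → Finset ℕ} (hD : ∀ i, Good q (D i)) {h M : ℕ}
    (hM : h ≤ M) : (Res q D h).card * 2 ^ (M - h) ≤ (Res q D M).card := by
  have h4 : (Res q D M).card = (Res q D h).card * ∏ i ∈ range (M - h), (D (h + i)).card := by
    rw [card_Res hq M (fun i => (hD i).1), card_Res hq h (fun i => (hD i).1)]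
    have e : M = h + (M - h) := by omega
    conv_lhs => rw [e]
    rw [prod_range_add]
  have h5 : 2 ^ (M - h) ≤ ∏ i ∈ range (M - h), (D (h + i)).card := by
    calc 2 ^ (M - h) = ∏ _i ∈ range (M - h), 2 := by rw [prod_const, card_range]
      _ ≤ _ := prod_le_prod' fun i _ => two_le_card (hD _)
  rw [h4]
  exact Nat.mul_le_mul_left _ h5

open Classical in
/-- few restricted integers lie in a short interval -/
theorem interval_count {q : ℕ} (hq : 0 < q) {D : ℕ → Finset ℕ} (hD : ∀ i, Good q (D i)) {h M : ℕ}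
    (hM : h ≤ M) {A : Finset ℕ} (hA : A ⊆ Res q D M)
    (hcl : ∀ n ∈ A, ∀ n' ∈ A, n' < n + 2 * q ^ h) :
    A.card * 2 ^ (M - h) ≤ 3 * (Res q D M).card := by
  have hqh : 0 < q ^ h := pow_pos hq _
  have hkey : A.card ≤ 3 * (Res q D h).card := by
    rcases A.eq_empty_or_nonempty with he | hne
    · rw [he, card_empty]; exact Nat.zero_le _
    obtain ⟨n0, hn0, hmin⟩ := A.exists_min_image id hne
    simp only [id] at hmin
    set t := n0 / q ^ h with ht
    have hsub : A ⊆ (range 3).biUnion fun i => (Res q D M).filter fun n => n / q ^ h = t + i := by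
      intro n hn
      rw [mem_biUnion]
      have h1 := hcl n0 hn0 n hn
      have h2 := hmin n hn
      have h3 : t ≤ n / q ^ h := Nat.div_le_div_right h2
      have h4 : n / q ^ h < t + 3 := by
        rw [Nat.div_lt_iff_lt_mul hqh]
        have h5 : n0 < q ^ h * (t + 1) := Nat.lt_mul_div_succ n0 hqh
        calc n < n0 + 2 * q ^ h := h1
          _ < q ^ h * (t + 1) + 2 * q ^ h := by omega
          _ = (t + 3) * q ^ h := by ring
      refine ⟨n / q ^ h - t, mem_range.2 (by omega), ?_⟩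
      rw [mem_filter]
      exact ⟨hA hn, by omega⟩
    refine (card_le_card hsub).trans (card_biUnion_le.trans ?_)
    refine (sum_le_card_nsmul _ _ (Res q D h).card fun i _ => block_count hq hM _).trans ?_
    rw [card_range, smul_eq_mul]
  calc A.card * 2 ^ (M - h) ≤ 3 * (Res q D h).card * 2 ^ (M - h) := Nat.mul_le_mul_right _ hkey
    _ = 3 * ((Res q D h).card * 2 ^ (M - h)) := by ring
    _ ≤ _ := Nat.mul_le_mul_left _ (Res_split hq hD hM)

/-! ## Unbalanced trajectories -/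

open Classical in
/-- few restricted integers have an unbalanced trajectory -/
theorem unb_count {g : GM} {b : ℤ → ℤ} {e : ℤ → ℕ} {C : Finset (ℤ × ℕ)} {ρ : ℤ × ℕ → ℝ}
    (hf : g.Fac b e) (hC : g.Cls e C ρ) {η : ℝ} (hη : 0 < η) {q : ℕ} (hq : 2 ≤ q)
    (hco : Nat.Coprime q g.d) :
    ∃ c K : ℝ, 0 < c ∧ 0 < K ∧ ∀ D : ℕ → Finset ℕ, (∀ i, Good q (D i)) → ∀ r N M : ℕ,
      2 ^ (r + 1) * (g.d * N) ≤ M → ∀ β γ : ℤ, IsCoprime β (g.d : ℤ) → ∀ A : Finset ℕ,
        A ⊆ Res q D M → (∀ n ∈ A, β * n + γ ∈ g.SC C ∧ GP.Unb g (GP.mu g C ρ) η N (β * n + γ)) →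
        (A.card : ℝ) ≤ K * ((N + 1) * Real.exp (-(c * N))) *
          (2 ^ (r + 1) * q * qb q r ^ (g.d * N)) * (Res q D M).card := by
  obtain ⟨c, K, hc, hK, hcl⟩ := GP.card_classes hf hC hη
  refine ⟨c, K, hc, hK, fun D hD r N M hM β γ hβ A hA hbad => ?_⟩
  have hd2 := g.two_le
  have hd0 : (0 : ℝ) < g.d := by have := g.dr; linarith
  set V : Finset ℤ := A.image fun n : ℕ => (β * n + γ) % (g.d : ℤ) ^ N with hV
  have hVc := hcl N V (by
    intro v hv
    rw [hV, mem_image] at hv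
    obtain ⟨n, hn, rfl⟩ := hv
    exact ⟨β * n + γ, (hbad n hn).1, (hbad n hn).2, rfl⟩)
  have hqb := one_le_qb hq r
  set F : ℝ := 2 ^ (r + 1) * q * qb q r ^ (g.d * N) / g.d ^ N * (Res q D M).card with hF
  have hF0 : 0 ≤ F := by rw [hF]; positivity
  have h1 : (A.card : ℝ) = ∑ v ∈ V, ((A.filter fun n : ℕ => (β * n + γ) % (g.d : ℤ) ^ N = v).card : ℝ) := by
    have := Finset.card_eq_sum_card_fiberwise (s := A) (t := V)
      (f := fun n : ℕ => (β * n + γ) % (g.d : ℤ) ^ N) (fun n hn => mem_image_of_mem _ hn)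
    rw [this]; push_cast; rfl
  have h2 : ∀ v ∈ V, ((A.filter fun n : ℕ => (β * n + γ) % (g.d : ℤ) ^ N = v).card : ℝ) ≤ F := by
    intro v _
    rcases (A.filter fun n : ℕ => (β * n + γ) % (g.d : ℤ) ^ N = v).eq_empty_or_nonempty with he | ⟨n0, hn0⟩
    · rw [he, card_empty, Nat.cast_zero]; exact hF0
    · have hsub : (A.filter fun n : ℕ => (β * n + γ) % (g.d : ℤ) ^ N = v) ⊆
          (Res q D M).filter fun n : ℕ => (n : ZMod (g.d ^ N)) = (n0 : ZMod (g.d ^ N)) := by
        intro n hn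
        rw [mem_filter] at hn hn0 ⊢
        refine ⟨hA hn.1, ?_⟩
        have h3 : (β * n + γ) ≡ (β * n0 + γ) [ZMOD (g.d : ℤ) ^ N] := hn.2.trans hn0.2.symm
        have h4 : (g.d : ℤ) ^ N ∣ (β * n0 + γ) - (β * n + γ) := h3.dvd
        have h5 : (g.d : ℤ) ^ N ∣ ((n0 : ℤ) - n) := by
          have e : (β * n0 + γ) - (β * n + γ) = β * ((n0 : ℤ) - n) := by ring
          rw [e] at h4
          exact IsCoprime.dvd_of_dvd_mul_left (IsCoprime.pow_left hβ.symm) h4
        have h6 : ((n : ℤ) : ZMod (g.d ^ N)) = ((n0 : ℤ) : ZMod (g.d ^ N)) := by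
          rw [ZMod.intCast_eq_intCast_iff_dvd_sub]
          push_cast
          exact h5
        exact_mod_cast h6
      have h3 := card_le_card hsub
      exact le_trans (by exact_mod_cast h3) (flat_d hq hd2 hco hD hM _)
  rw [h1]
  refine (sum_le_sum h2).trans ?_
  rw [sum_const, nsmul_eq_mul]
  refine (mul_le_mul_of_nonneg_right hVc hF0).trans (le_of_eq ?_)
  rw [hF]
  have : (g.d : ℝ) ^ N ≠ 0 := by positivity
  field_simp

end Pool.Agent.J6H48.LD
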