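import Pool.Agent.J6H48.LD.A

/-!
# Restricted digits and generalised Collatz maps: the law of the trajectories
-/

set_option autoImplicit false

namespace Pool.Agent.J6H48.LD

open Finset Pool.Agent.J6H48.RD Pool.Agent.H319R2.M Pool.Agent.Y927

/-- For all `j ≤ c M` the term `T^j x` is `exp (j μ) |x|` up to a factor `exp (ε c M)`. -/
def Typ (g : GM) (μ ε c : ℝ) (M : ℕ) (x : ℤ) : Prop := ∀ j : ℕ, (j : ℝ) ≤ c * M →
  Real.exp (j * μ) * |(x : ℝ)| * Real.exp (-(ε * (c * M))) ≤ |((g.T^[j] x : ℤ) : ℝ)| ∧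
    |((g.T^[j] x : ℤ) : ℝ)| ≤ Real.exp (j * μ) * |(x : ℝ)| * Real.exp (ε * (c * M))

theorem typ_of_bal {g : GM} {μ ε c : ℝ} {N M : ℕ} {x : ℤ} (hε : 0 < ε)
    (hU : ¬ GP.Unb g μ (ε / 4) N x) (hN1 : 1 ≤ ε * N) (hR : 2 * g.R ≤ N)
    (hx : Real.exp ((2 + ε / 4 + |μ|) * N) ≤ |(x : ℝ)|) (hcN : ∀ j : ℕ, (j : ℝ) ≤ c * M → j ≤ N)
    (hNc : (N : ℝ) ≤ c * M) : Typ g μ ε c M x := by
  intro j hj
  have hjN := hcN j hj
  have hN0 : (0 : ℝ) ≤ N := Nat.cast_nonneg _
  have hjr : (j : ℝ) ≤ N := by exact_mod_cast hjN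
  have hj0 : (0 : ℝ) ≤ j := Nat.cast_nonneg _
  have hR0 := g.R_nonneg
  have hx0 : 0 ≤ |(x : ℝ)| := abs_nonneg _
  have hmax : max 1 (Real.exp (-(j * μ))) ≤ Real.exp (|μ| * N) := by
    apply max_le
    · exact Real.one_le_exp (by positivity)
    · apply Real.exp_le_exp.2
      have h1 : -μ ≤ |μ| := neg_le_abs μ
      have h2 : (j : ℝ) * (-μ) ≤ j * |μ| := mul_le_mul_of_nonneg_left h1 hj0
      have h3 : (j : ℝ) * |μ| ≤ N * |μ| := mul_le_mul_of_nonneg_right hjr (abs_nonneg _)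
      linarith
  have hlaw := GP.law g hU hjN (by
    have h1 : g.R * (j * (Real.exp (ε / 4 * N) * max 1 (Real.exp (-(j * μ))))) ≤
        g.R * (N * (Real.exp (ε / 4 * N) * Real.exp (|μ| * N))) := by gcongr
    have h2 : (N : ℝ) ≤ Real.exp N := by have := Real.add_one_le_exp (N : ℝ); linarith
    have h3 : 2 * g.R ≤ Real.exp N := hR.trans h2
    have h4 : 2 * g.R * (N * (Real.exp (ε / 4 * N) * Real.exp (|μ| * N))) ≤
        Real.exp N * (Real.exp N * (Real.exp (ε / 4 * N) * Real.exp (|μ| * N))) := by gcongr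
    have h5 : Real.exp N * (Real.exp N * (Real.exp (ε / 4 * N) * Real.exp (|μ| * N))) =
        Real.exp ((2 + ε / 4 + |μ|) * N) := by
      rw [← Real.exp_add, ← Real.exp_add, ← Real.exp_add]; congr 1; ring
    linarith)
  have hl2 := Real.log_two_lt_d9
  have h2 : (2 : ℝ) ≤ Real.exp (3 / 4 * (ε * N)) := by
    have h1 : Real.log 2 ≤ 3 / 4 * (ε * N) := by linarith
    have := Real.exp_le_exp.2 h1
    rwa [Real.exp_log (by norm_num)] at this
  have h3 : ε * N ≤ ε * (c * M) := mul_le_mul_of_nonneg_left hNc hε.le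
  have h4 : 2 * Real.exp (ε / 4 * N) ≤ Real.exp (ε * (c * M)) := by
    calc 2 * Real.exp (ε / 4 * N) ≤ Real.exp (3 / 4 * (ε * N)) * Real.exp (ε / 4 * N) := by gcongr
      _ = Real.exp (ε * N) := by rw [← Real.exp_add]; congr 1; ring
      _ ≤ _ := Real.exp_le_exp.2 h3
  constructor
  · refine le_trans ?_ hlaw.1
    rw [Real.exp_sub, Real.exp_neg]
    have h5 : (Real.exp (ε * (c * M)))⁻¹ ≤ (2 * Real.exp (ε / 4 * N))⁻¹ :=
      inv_anti₀ (by positivity) h4
    calc Real.exp (j * μ) * |(x : ℝ)| * (Real.exp (ε * (c * M)))⁻¹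
        ≤ Real.exp (j * μ) * |(x : ℝ)| * (2 * Real.exp (ε / 4 * N))⁻¹ := by gcongr
      _ = 1 / 2 * (Real.exp (j * μ) / Real.exp (ε / 4 * N)) * |(x : ℝ)| := by
          rw [mul_inv]; ring
  · refine hlaw.2.trans ?_
    rw [Real.exp_add]
    calc 2 * (Real.exp (j * μ) * Real.exp (ε / 4 * N)) * |(x : ℝ)|
        = Real.exp (j * μ) * |(x : ℝ)| * (2 * Real.exp (ε / 4 * N)) := by ring
      _ ≤ Real.exp (j * μ) * |(x : ℝ)| * Real.exp (ε * (c * M)) := by gcongr

/-- The law of the first `c M` terms. -/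
theorem part_one {g : GM} {b : ℤ → ℤ} {e : ℤ → ℕ} {C : Finset (ℤ × ℕ)} {ρ : ℤ × ℕ → ℝ}
    (hf : g.Fac b e) (hC : g.Cls e C ρ) {ε : ℝ} (hε : 0 < ε) {q : ℕ} (hq : 2 ≤ q)
    (hco : Nat.Coprime q g.d) :
    ∃ c δ K : ℝ, 0 < c ∧ 0 < δ ∧ 0 < K ∧ ∀ D : ℕ → Finset ℕ, (∀ i, Good q (D i)) →
      ∀ β γ : ℤ, IsCoprime β (g.d : ℤ) → ∀ M : ℕ, ∀ A : Finset ℕ, A ⊆ Res q D M →
        (∀ n ∈ A, β * n + γ ∈ g.SC C ∧
          ¬ (Typ g (GP.mu g C ρ) ε c M (β * n + γ) ∧ β * n + γ ≠ 0)) →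
        (A.card : ℝ) ≤ K * Real.exp (-(δ * M)) * (Res q D M).card := by
  classical
  set μ := GP.mu g C ρ with hμ
  have hd2 := g.two_le
  have hd0 : (0 : ℝ) < g.d := by have := g.dr; linarith
  have hq0 : (0 : ℝ) < q := by exact_mod_cast (by omega : 0 < q)
  obtain ⟨c1, K1, hc1, hK1, hunb⟩ := unb_count hf hC (η := ε / 4) (by positivity) hq hco
  obtain ⟨r, -, hr⟩ := exists_r hq (show 0 < c1 / (4 * g.d) by positivity)
  set A0 : ℝ := 2 + ε / 4 + |μ| with hA0
  have hA00 : 0 < A0 := by rw [hA0]; positivity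
  have hl2 := Real.log_two_gt_d9
  have hl20 : 0 < Real.log 2 := by linarith
  set W2 : ℕ := ⌈4 * A0 / Real.log 2⌉₊ + 1 with hW2
  have hW21 : 1 ≤ W2 := by omega
  have hW2r : 4 * A0 / Real.log 2 ≤ W2 := by
    rw [hW2]; push_cast; linarith [Nat.le_ceil (4 * A0 / Real.log 2)]
  set W : ℕ := 2 ^ (r + 1) * (g.d * W2) with hW
  have hpow1 : 1 ≤ 2 ^ (r + 1) := Nat.one_le_two_pow
  have hW1 : 1 ≤ W := by
    rw [hW]
    exact Nat.mul_pos (by positivity) (Nat.mul_pos (by omega) (by omega))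
  have hW0 : (0 : ℝ) < W := by exact_mod_cast hW1
  have hWW2 : W2 ≤ W := by
    calc W2 = 1 * (1 * W2) := by ring
      _ ≤ 2 ^ (r + 1) * (g.d * W2) := Nat.mul_le_mul hpow1 (Nat.mul_le_mul (by omega) le_rfl)
  set δ : ℝ := min (c1 / (2 * W)) (Real.log 2 / 2) with hδ
  have hδ0 : 0 < δ := lt_min (by positivity) (by positivity)
  have hδ1 : δ ≤ c1 / (2 * W) := min_le_left _ _
  have hδ2 : δ ≤ Real.log 2 / 2 := min_le_right _ _
  set N0 : ℕ := ⌈1 / ε⌉₊ + ⌈2 * g.R⌉₊ + 2 with hN0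
  set C1 : ℝ := K1 * (2 ^ (r + 1) * q) * (1 + 4 / c1) * Real.exp (c1 / 2) with hC1
  have hC10 : 0 < C1 := by positivity
  set K : ℝ := C1 + 3 + Real.exp (δ * (W * (N0 + 1))) with hK
  refine ⟨1 / W, δ, K, by positivity, hδ0, by positivity, fun D hD β γ hβ M A hA hbad => ?_⟩
  have hR0 : (0 : ℝ) ≤ (Res q D M).card := Nat.cast_nonneg _
  set N : ℕ := M / W with hN
  have hNM : W * N ≤ M := Nat.mul_div_le M W
  have hMN : M < W * (N + 1) := Nat.lt_mul_div_succ M (by omega)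
  have hNMr : (W : ℝ) * N ≤ M := by exact_mod_cast hNM
  have hMNr : (M : ℝ) < W * (N + 1) := by exact_mod_cast hMN
  have hNr0 : (0 : ℝ) ≤ N := Nat.cast_nonneg _
  rcases Nat.lt_or_ge N N0 with hkk | hkk
  · have h1 : (A.card : ℝ) ≤ (Res q D M).card := by exact_mod_cast card_le_card hA
    have h2 : (1 : ℝ) ≤ K * Real.exp (-(δ * M)) := by
      have h3 : (M : ℝ) ≤ W * (N0 + 1) := by
        have : (N : ℝ) ≤ N0 := by exact_mod_cast hkk.le
        nlinarith
      have h4 : Real.exp (δ * M) ≤ Real.exp (δ * (W * (N0 + 1))) :=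
        Real.exp_le_exp.2 (mul_le_mul_of_nonneg_left h3 hδ0.le)
      rw [Real.exp_neg, ← div_eq_mul_inv, le_div_iff₀ (Real.exp_pos _), one_mul]
      refine h4.trans ?_
      rw [hK]; linarith
    calc (A.card : ℝ) ≤ 1 * (Res q D M).card := by rw [one_mul]; exact h1
      _ ≤ _ := mul_le_mul_of_nonneg_right h2 hR0
  · have hNN0 : (N0 : ℝ) ≤ N := by exact_mod_cast hkk
    have hN0r : 1 / ε + 2 * g.R + 2 ≤ (N0 : ℝ) := by
      rw [hN0]; push_cast
      linarith [Nat.le_ceil (1 / ε), Nat.le_ceil (2 * g.R)]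
    have hRn := g.R_nonneg
    have hεi : 0 < 1 / ε := by positivity
    have hN1 : 1 ≤ ε * N := by
      have : 1 / ε ≤ N := by linarith
      rw [div_le_iff₀ hε] at this; linarith
    have h2R : 2 * g.R ≤ N := by linarith
    have hN2 : 2 ≤ N := by omega
    have hM2 : 2 ≤ M := by
      calc 2 ≤ N := hN2
        _ = 1 * N := (one_mul _).symm
        _ ≤ W * N := Nat.mul_le_mul_right _ hW1
        _ ≤ M := hNM
    have hcN : ∀ j : ℕ, (j : ℝ) ≤ 1 / W * M → j ≤ N := by
      intro j hj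
      rw [hN, Nat.le_div_iff_mul_le (by omega)]
      rw [div_mul_eq_mul_div, one_mul, le_div_iff₀ hW0] at hj
      exact_mod_cast hj
    have hNc : (N : ℝ) ≤ 1 / W * M := by
      rw [div_mul_eq_mul_div, one_mul, le_div_iff₀ hW0]; linarith
    -- the two kinds of exceptions
    set A1 : Finset ℕ := A.filter fun n : ℕ => GP.Unb g μ (ε / 4) N (β * n + γ) with hA1
    set A2 : Finset ℕ := A.filter fun n : ℕ => |((β * n + γ : ℤ) : ℝ)| < Real.exp (A0 * N) with hA2
    have hsub : A ⊆ A1 ∪ A2 := by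
      intro n hn
      by_contra hcon
      rw [mem_union, mem_filter, mem_filter, not_or, not_and, not_and] at hcon
      have h1 := hcon.1 hn
      have h2 := hcon.2 hn
      push Not at h2
      refine (hbad n hn).2 ⟨typ_of_bal hε h1 hN1 h2R h2 hcN hNc, fun h0 => ?_⟩
      rw [h0, Int.cast_zero, abs_zero] at h2
      exact absurd h2 (not_le.2 (Real.exp_pos _))
    have hAc : (A.card : ℝ) ≤ A1.card + A2.card := by
      exact_mod_cast (card_le_card hsub).trans (card_union_le _ _)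
    -- unbalanced
    have hWN : 2 ^ (r + 1) * (g.d * N) ≤ M := by
      refine le_trans ?_ hNM
      rw [hW]
      calc 2 ^ (r + 1) * (g.d * N) = 2 ^ (r + 1) * (g.d * 1) * N := by ring
        _ ≤ 2 ^ (r + 1) * (g.d * W2) * N := by
            apply Nat.mul_le_mul_right
            apply Nat.mul_le_mul_left
            exact Nat.mul_le_mul_left _ hW21
    have h1 := hunb D hD r N M hWN β γ hβ A1 ((filter_subset _ _).trans hA) (by
      intro n hn
      rw [hA1, mem_filter] at hn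
      exact ⟨(hbad n hn.1).1, hn.2⟩)
    have h2 : K1 * ((N + 1) * Real.exp (-(c1 * N))) * (2 ^ (r + 1) * q * qb q r ^ (g.d * N)) ≤
        C1 * Real.exp (-(δ * M)) := by
      have h3 : qb q r ^ (g.d * N) ≤ Real.exp (c1 * N / 4) := by
        have h4 : qb q r ≤ Real.exp (c1 / (4 * g.d)) :=
          hr.trans (by have := Real.add_one_le_exp (c1 / (4 * g.d)); linarith)
        calc qb q r ^ (g.d * N) ≤ Real.exp (c1 / (4 * g.d)) ^ (g.d * N) :=
              pow_le_pow_left₀ (le_trans zero_le_one (one_le_qb hq r)) h4 _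
          _ = Real.exp (c1 * N / 4) := by
              rw [← Real.exp_nat_mul]; push_cast; congr 1; field_simp
      have hqb0 : 0 ≤ qb q r := le_trans zero_le_one (one_le_qb hq r)
      have h4 : ((N : ℝ) + 1) ≤ (1 + 4 / c1) * Real.exp (c1 * N / 4) := by
        have h5 : c1 * N / 4 ≤ Real.exp (c1 * N / 4) := by
          have := Real.add_one_le_exp (c1 * N / 4); linarith
        have h6 : 1 ≤ Real.exp (c1 * N / 4) := Real.one_le_exp (by positivity)
        have h7 : (N : ℝ) = 4 / c1 * (c1 * N / 4) := by field_simp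
        have h8 : (N : ℝ) ≤ 4 / c1 * Real.exp (c1 * N / 4) := by
          conv_lhs => rw [h7]
          exact mul_le_mul_of_nonneg_left h5 (by positivity)
        linarith
      have h5 : Real.exp (-(c1 * N / 2)) ≤ Real.exp (c1 / 2) * Real.exp (-(δ * M)) := by
        rw [← Real.exp_add]
        apply Real.exp_le_exp.2
        have h6 : δ * M ≤ c1 / (2 * W) * (W * (N + 1)) :=
          mul_le_mul hδ1 hMNr.le (Nat.cast_nonneg _) (by positivity)
        have h7 : c1 / (2 * W) * (W * ((N : ℝ) + 1)) = c1 * N / 2 + c1 / 2 := by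
          field_simp
        linarith
      calc K1 * ((N + 1) * Real.exp (-(c1 * N))) * (2 ^ (r + 1) * q * qb q r ^ (g.d * N))
          ≤ K1 * (((1 + 4 / c1) * Real.exp (c1 * N / 4)) * Real.exp (-(c1 * N))) *
            (2 ^ (r + 1) * q * Real.exp (c1 * N / 4)) := by gcongr
        _ = K1 * (2 ^ (r + 1) * q) * (1 + 4 / c1) * (Real.exp (c1 * N / 4) * Real.exp (-(c1 * N)) *
              Real.exp (c1 * N / 4)) := by ring
        _ = K1 * (2 ^ (r + 1) * q) * (1 + 4 / c1) * Real.exp (-(c1 * N / 2)) := by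
            rw [← Real.exp_add, ← Real.exp_add]; congr 2; ring
        _ ≤ K1 * (2 ^ (r + 1) * q) * (1 + 4 / c1) * (Real.exp (c1 / 2) * Real.exp (-(δ * M))) :=
            mul_le_mul_of_nonneg_left h5 (by positivity)
        _ = C1 * Real.exp (-(δ * M)) := by rw [hC1]; ring
    have h3 : (A1.card : ℝ) ≤ C1 * Real.exp (-(δ * M)) * (Res q D M).card :=
      h1.trans (mul_le_mul_of_nonneg_right h2 hR0)
    -- small
    have hβ0 : β ≠ 0 := by
      rintro rfl
      rw [isCoprime_zero_left, Int.isUnit_iff] at hβ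
      omega
    have hhalf : (M : ℝ) / 4 ≤ ((M / 2 : ℕ) : ℝ) := by
      have h5 : M ≤ 4 * (M / 2) := by omega
      have h6 : (M : ℝ) ≤ 4 * ((M / 2 : ℕ) : ℝ) := by exact_mod_cast h5
      linarith
    have hX : Real.exp (A0 * N) ≤ (q : ℝ) ^ (M / 2) := by
      have h5 : A0 * N ≤ Real.log 2 * ((M / 2 : ℕ) : ℝ) := by
        have h6 : A0 ≤ Real.log 2 / 4 * W2 := by
          rw [div_le_iff₀ hl20] at hW2r; linarith
        have h7 : (W2 : ℝ) * N ≤ M := by
          have : W2 * N ≤ M := (Nat.mul_le_mul_right _ hWW2).trans hNM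
          exact_mod_cast this
        calc A0 * N ≤ Real.log 2 / 4 * W2 * N := mul_le_mul_of_nonneg_right h6 hNr0
          _ = Real.log 2 / 4 * (W2 * N) := by ring
          _ ≤ Real.log 2 / 4 * M := mul_le_mul_of_nonneg_left h7 (by positivity)
          _ = Real.log 2 * (M / 4) := by ring
          _ ≤ _ := mul_le_mul_of_nonneg_left hhalf hl20.le
      calc Real.exp (A0 * N) ≤ Real.exp (Real.log 2 * ((M / 2 : ℕ) : ℝ)) := Real.exp_le_exp.2 h5
        _ = 2 ^ (M / 2) := by rw [mul_comm, Real.exp_nat_mul, Real.exp_log (by norm_num)]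
        _ ≤ (q : ℝ) ^ (M / 2) := by
            apply pow_le_pow_left₀ (by norm_num)
            exact_mod_cast hq
    have h4 := interval_count (show 0 < q by omega) hD (h := M / 2) (M := M) (Nat.div_le_self _ _)
      (A := A2) ((filter_subset _ _).trans hA) (by
        intro n hn n' hn'
        rw [hA2, mem_filter] at hn hn'
        have h5 : |((n' : ℤ) - n : ℤ)| < 2 * (q : ℤ) ^ (M / 2) := by
          have h6 : |(((n' : ℤ) - n : ℤ) : ℝ)| < 2 * (q : ℝ) ^ (M / 2) := by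
            have h7 : (1 : ℝ) ≤ |(β : ℝ)| := by
              have := Int.one_le_abs hβ0
              exact_mod_cast this
            have h8 : |(β : ℝ)| * |(((n' : ℤ) - n : ℤ) : ℝ)| =
                |((β * n' + γ : ℤ) : ℝ) - ((β * n + γ : ℤ) : ℝ)| := by
              rw [← abs_mul]; congr 1; push_cast; ring
            have h9 := abs_sub ((β * n' + γ : ℤ) : ℝ) ((β * n + γ : ℤ) : ℝ)
            have h10 := abs_nonneg (((n' : ℤ) - n : ℤ) : ℝ)
            have h11 := hn.2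
            have h12 := hn'.2
            nlinarith
          exact_mod_cast h6
        have h6 := (abs_lt.1 h5).2
        have h7 : (n' : ℤ) < n + 2 * (q : ℤ) ^ (M / 2) := by linarith
        exact_mod_cast h7)
    have h5 : (A2.card : ℝ) ≤ 3 * Real.exp (-(δ * M)) * (Res q D M).card := by
      have h7 : Real.exp (δ * M) ≤ (2 : ℝ) ^ (M - M / 2) := by
        have h8 : (M : ℝ) ≤ 2 * ((M - M / 2 : ℕ) : ℝ) := by
          have : M ≤ 2 * (M - M / 2) := by omega
          exact_mod_cast this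
        have h9 : δ * M ≤ Real.log 2 * ((M - M / 2 : ℕ) : ℝ) := by
          calc δ * M ≤ Real.log 2 / 2 * (2 * ((M - M / 2 : ℕ) : ℝ)) :=
                mul_le_mul hδ2 h8 (Nat.cast_nonneg _) (by positivity)
            _ = _ := by ring
        refine (Real.exp_le_exp.2 h9).trans (le_of_eq ?_)
        rw [mul_comm, Real.exp_nat_mul, Real.exp_log (by norm_num)]
      have h4' : (A2.card : ℝ) * 2 ^ (M - M / 2) ≤ 3 * (Res q D M).card := by exact_mod_cast h4
      have h10 : (A2.card : ℝ) * Real.exp (δ * M) ≤ 3 * (Res q D M).card :=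
        le_trans (mul_le_mul_of_nonneg_left h7 (Nat.cast_nonneg _)) h4'
      have h11 : 3 * Real.exp (-(δ * M)) * (Res q D M).card =
          3 * (Res q D M).card / Real.exp (δ * M) := by
        rw [Real.exp_neg]; field_simp
      rw [h11, le_div_iff₀ (Real.exp_pos _)]
      exact h10
    calc (A.card : ℝ) ≤ C1 * Real.exp (-(δ * M)) * (Res q D M).card +
          3 * Real.exp (-(δ * M)) * (Res q D M).card := hAc.trans (add_le_add h3 h5)
      _ = (C1 + 3) * Real.exp (-(δ * M)) * (Res q D M).card := by ring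
      _ ≤ K * Real.exp (-(δ * M)) * (Res q D M).card := by
          apply mul_le_mul_of_nonneg_right _ hR0
          apply mul_le_mul_of_nonneg_right _ (Real.exp_pos _).le
          rw [hK]
          have := Real.exp_pos (δ * (W * (N0 + 1)))
          linarith

/-- the size of the numbers -/
theorem log_le {q B M n : ℕ} (hq : 2 ≤ q) (hM : 1 ≤ M) {β γ : ℤ} (hn : n < q ^ M)
    (hβ : |β| ≤ (q : ℤ) ^ (B * M)) (hγ : |γ| ≤ (q : ℤ) ^ (B * M)) (h0 : β * n + γ ≠ 0) :
    Real.log |((β * n + γ : ℤ) : ℝ)| ≤ ((B : ℝ) + 2) * M * Real.log q := by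
  have hq0 : (0 : ℝ) < q := by exact_mod_cast (by omega : 0 < q)
  have h1 : |β * n + γ| ≤ (q : ℤ) ^ ((B + 2) * M) := by
    have hn' : (n : ℤ) + 1 ≤ (q : ℤ) ^ M := by exact_mod_cast hn
    have hqM : (1 : ℤ) ≤ (q : ℤ) ^ (B * M) := by
      have : 1 ≤ q ^ (B * M) := Nat.one_le_pow _ _ (by omega)
      exact_mod_cast this
    have hqM1 : (1 : ℤ) ≤ (q : ℤ) ^ M := by
      have : 1 ≤ q ^ M := Nat.one_le_pow _ _ (by omega)
      exact_mod_cast this
    calc |β * n + γ| ≤ |β * n| + |γ| := abs_add_le _ _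
      _ = |β| * n + |γ| := by rw [abs_mul, Nat.abs_cast]
      _ ≤ (q : ℤ) ^ (B * M) * n + (q : ℤ) ^ (B * M) := by gcongr
      _ = (q : ℤ) ^ (B * M) * (n + 1) := by ring
      _ ≤ (q : ℤ) ^ (B * M) * (q : ℤ) ^ M := by gcongr
      _ ≤ (q : ℤ) ^ (B * M) * (q : ℤ) ^ M * (q : ℤ) ^ M := le_mul_of_one_le_right (by positivity) hqM1
      _ = _ := by rw [← pow_add, ← pow_add]; congr 1; ring
  have h2 : |((β * n + γ : ℤ) : ℝ)| ≤ (q : ℝ) ^ ((B + 2) * M) := by exact_mod_cast h1
  have h3 : 0 < |((β * n + γ : ℤ) : ℝ)| := abs_pos.2 (by exact_mod_cast h0)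
  calc Real.log |((β * n + γ : ℤ) : ℝ)| ≤ Real.log ((q : ℝ) ^ ((B + 2) * M)) := Real.log_le_log h3 h2
    _ = _ := by rw [Real.log_pow]; push_cast; ring

/-- Descent, or growth, by a power. -/
theorem part_two {g : GM} {b : ℤ → ℤ} {e : ℤ → ℕ} {C : Finset (ℤ × ℕ)} {ρ : ℤ × ℕ → ℝ}
    (hf : g.Fac b e) (hC : g.Cls e C ρ) (hμ0 : GP.mu g C ρ ≠ 0) {q : ℕ} (hq : 2 ≤ q)
    (hco : Nat.Coprime q g.d) (B : ℕ) :
    ∃ κ δ K : ℝ, 0 < κ ∧ 0 < δ ∧ 0 < K ∧ ∀ D : ℕ → Finset ℕ, (∀ i, Good q (D i)) →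
      ∀ β γ : ℤ, IsCoprime β (g.d : ℤ) → ∀ M : ℕ, |β| ≤ (q : ℤ) ^ (B * M) → |γ| ≤ (q : ℤ) ^ (B * M) →
      ∀ A : Finset ℕ, A ⊆ Res q D M →
        (∀ n ∈ A, β * n + γ ∈ g.SC C ∧ ¬ ∃ k : ℕ,
          (GP.mu g C ρ < 0 → |((g.T^[k] (β * n + γ) : ℤ) : ℝ)| ≤ |((β * n + γ : ℤ) : ℝ)| ^ (1 - κ) ∧
            |((g.T^[k] (β * n + γ) : ℤ) : ℝ)| < |((β * n + γ : ℤ) : ℝ)|) ∧
          (0 < GP.mu g C ρ → |((β * n + γ : ℤ) : ℝ)| ^ (1 + κ) ≤ |((g.T^[k] (β * n + γ) : ℤ) : ℝ)| ∧
            |((β * n + γ : ℤ) : ℝ)| < |((g.T^[k] (β * n + γ) : ℤ) : ℝ)|)) →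
        (A.card : ℝ) ≤ K * Real.exp (-(δ * M)) * (Res q D M).card := by
  classical
  set μ := GP.mu g C ρ with hμ
  have hμp : 0 < |μ| := abs_pos.2 hμ0
  obtain ⟨c, δ, K, hc, hδ, hK, H⟩ := part_one hf hC (ε := |μ| / 4) (by positivity) hq hco
  have hq1 : (1 : ℝ) < q := by exact_mod_cast (by omega : 1 < q)
  have hlq : 0 < Real.log q := Real.log_pos hq1
  have hB0 : (0 : ℝ) ≤ B := Nat.cast_nonneg _
  set κ : ℝ := |μ| * c / (4 * ((B + 2) * Real.log q)) with hκ
  have hκ0 : 0 < κ := by positivity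
  refine ⟨κ, δ, K + Real.exp (δ * (1 / c)), hκ0, hδ, by positivity,
    fun D hD β γ hβ M hβM hγM A hA hbad => ?_⟩
  have hR0 : (0 : ℝ) ≤ (Res q D M).card := Nat.cast_nonneg _
  rcases lt_or_ge (c * M) 1 with hsm | hlg
  · have h1 : (A.card : ℝ) ≤ (Res q D M).card := by exact_mod_cast card_le_card hA
    have h2 : (1 : ℝ) ≤ (K + Real.exp (δ * (1 / c))) * Real.exp (-(δ * M)) := by
      have h3 : (M : ℝ) ≤ 1 / c := by rw [le_div_iff₀ hc]; linarith
      have h4 : Real.exp (δ * M) ≤ Real.exp (δ * (1 / c)) :=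
        Real.exp_le_exp.2 (mul_le_mul_of_nonneg_left h3 hδ.le)
      rw [Real.exp_neg, ← div_eq_mul_inv, le_div_iff₀ (Real.exp_pos _), one_mul]
      linarith
    calc (A.card : ℝ) ≤ 1 * (Res q D M).card := by rw [one_mul]; exact h1
      _ ≤ _ := mul_le_mul_of_nonneg_right h2 hR0
  · have hM1 : 1 ≤ M := by
      by_contra hcon
      have : M = 0 := by omega
      rw [this, Nat.cast_zero, mul_zero] at hlg
      linarith
    set N : ℕ := ⌊c * M⌋₊ with hN
    have hNle : (N : ℝ) ≤ c * M := Nat.floor_le (by positivity)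
    have hNlt : c * M < N + 1 := Nat.lt_floor_add_one _
    have hN1 : 1 ≤ N := (Nat.one_le_floor_iff _).2 hlg
    have hN1r : (1 : ℝ) ≤ N := by exact_mod_cast hN1
    have hmain := H D hD β γ hβ M A hA (fun n hn => ⟨(hbad n hn).1, fun hcon => ?_⟩)
    · refine hmain.trans ?_
      apply mul_le_mul_of_nonneg_right _ hR0
      apply mul_le_mul_of_nonneg_right _ (Real.exp_pos _).le
      have := Real.exp_pos (δ * (1 / c))
      linarith
    · obtain ⟨htyp, hx0⟩ := hcon
      refine (hbad n hn).2 ⟨N, ?_⟩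
      set x : ℤ := β * n + γ with hx
      have hxr : 0 < |(x : ℝ)| := abs_pos.2 (by exact_mod_cast hx0)
      have hnM : n < q ^ M := (mem_Res.1 (hA hn)).1
      have hlog := log_le hq hM1 hnM hβM hγM hx0
      rw [← hx] at hlog
      have h1 := htyp N hNle
      have h2 : |μ| / 4 * (c * M) ≤ |μ| * N / 2 := by
        have : c * M ≤ 2 * N := by linarith
        calc |μ| / 4 * (c * M) ≤ |μ| / 4 * (2 * N) := mul_le_mul_of_nonneg_left this (by positivity)
          _ = _ := by ring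
      have h3 : κ * Real.log |(x : ℝ)| ≤ |μ| * N / 2 := by
        calc κ * Real.log |(x : ℝ)| ≤ κ * (((B : ℝ) + 2) * M * Real.log q) :=
              mul_le_mul_of_nonneg_left hlog hκ0.le
          _ = |μ| / 4 * (c * M) := by rw [hκ]; field_simp
          _ ≤ _ := h2
      have hxe : |(x : ℝ)| = Real.exp (Real.log |(x : ℝ)|) := (Real.exp_log hxr).symm
      constructor
      · intro hneg
        have hab : |μ| = -μ := abs_of_neg hneg
        have h4 : |((g.T^[N] x : ℤ) : ℝ)| ≤ |(x : ℝ)| * Real.exp (-(|μ| * N / 2)) := by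
          refine h1.2.trans ?_
          have e1 : Real.exp (N * μ) * |(x : ℝ)| * Real.exp (|μ| / 4 * (c * M)) =
              |(x : ℝ)| * Real.exp (N * μ + |μ| / 4 * (c * M)) := by rw [Real.exp_add]; ring
          rw [e1]
          apply mul_le_mul_of_nonneg_left _ hxr.le
          apply Real.exp_le_exp.2
          rw [hab] at h2 ⊢
          linarith
        constructor
        · refine h4.trans ?_
          rw [Real.rpow_def_of_pos hxr]
          calc |(x : ℝ)| * Real.exp (-(|μ| * N / 2))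
              = Real.exp (Real.log |(x : ℝ)| + -(|μ| * N / 2)) := by rw [Real.exp_add, Real.exp_log hxr]
            _ ≤ Real.exp (Real.log |(x : ℝ)| * (1 - κ)) := by
                apply Real.exp_le_exp.2; linarith
        · refine lt_of_le_of_lt h4 ?_
          have h5 : Real.exp (-(|μ| * N / 2)) < 1 := by
            rw [Real.exp_lt_one_iff]
            have : 0 < |μ| * N / 2 := by positivity
            linarith
          calc |(x : ℝ)| * Real.exp (-(|μ| * N / 2)) < |(x : ℝ)| * 1 :=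
                mul_lt_mul_of_pos_left h5 hxr
            _ = _ := mul_one _
      · intro hpos
        have hab : |μ| = μ := abs_of_pos hpos
        have h4 : |(x : ℝ)| * Real.exp (|μ| * N / 2) ≤ |((g.T^[N] x : ℤ) : ℝ)| := by
          refine le_trans ?_ h1.1
          have e1 : Real.exp (N * μ) * |(x : ℝ)| * Real.exp (-(|μ| / 4 * (c * M))) =
              |(x : ℝ)| * Real.exp (N * μ + -(|μ| / 4 * (c * M))) := by rw [Real.exp_add]; ring
          rw [e1]
          apply mul_le_mul_of_nonneg_left _ hxr.le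
          apply Real.exp_le_exp.2
          rw [hab] at h2 ⊢
          linarith
        constructor
        · refine le_trans ?_ h4
          rw [Real.rpow_def_of_pos hxr]
          calc Real.exp (Real.log |(x : ℝ)| * (1 + κ))
              ≤ Real.exp (Real.log |(x : ℝ)| + |μ| * N / 2) := by
                apply Real.exp_le_exp.2; linarith
            _ = |(x : ℝ)| * Real.exp (|μ| * N / 2) := by rw [Real.exp_add, Real.exp_log hxr]
        · refine lt_of_lt_of_le ?_ h4
          have h5 : 1 < Real.exp (|μ| * N / 2) := Real.one_lt_exp_iff.2 (by positivity)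
          calc |(x : ℝ)| = |(x : ℝ)| * 1 := (mul_one _).symm
            _ < _ := mul_lt_mul_of_pos_left h5 hxr

end Pool.Agent.J6H48.LD
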